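import Pool.Agent.MP_84a9df_co.H90.Construction
import Pool.Agent.MP_84a9df_co.H90.Finite

/-! Disproof of the Sudakov-Verstraete question: for `l = 6` the ratio `c / d` is at least
`21 / 20` for infinitely many `k`. -/

namespace Pool.Agent.Results.MP_84a9df_co.HexagonGap

open SimpleGraph Filter
open Pool.Agent.MP_84a9df_co.H90

/-- `c l k`: the infimum of the real constants `x` such that every graph on `n ≥ 1` vertices with
at least `x * n / 2` edges has a cycle whose length is congruent to `l` modulo `k`. -/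
noncomputable def c (l k : ℕ) : ℝ :=
  sInf {x : ℝ | ∀ n : ℕ, 1 ≤ n → ∀ G : SimpleGraph (Fin n), x * n ≤ 2 * (G.edgeSet.ncard : ℝ) →
    ∃ (v : Fin n) (p : G.Walk v v), p.IsCycle ∧ p.length ≡ l [MOD k]}

/-- `d l k`: the largest average degree of a graph on `k` vertices with no cycle of length `l`. -/
noncomputable def d (l k : ℕ) : ℝ := 2 * (extremalNumber k (cycleGraph l) : ℝ) / k

lemma c_ge (q : ℕ) (hq : q.Prime) (hodd : Odd q) : 4 * (q : ℝ) / 3 ≤ c 6 (q ^ 3) := by
  classical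
  have := Fact.mk hq
  have hcard : Fintype.card (ZMod q) = q := ZMod.card q
  refine le_csInf ⟨(2 * (4 * (4 * q ^ 3)) + 1 : ℕ), ?_⟩ ?_
  · intro n hn G hG
    have h1 : (2 * (4 * (4 * q ^ 3)) + 1) * n ≤ 2 * G.edgeSet.ncard := by exact_mod_cast hG
    obtain ⟨L, hL, v, p, hp, hl⟩ := exists_cycle_mod G (q ^ 3) 6 hodd.pow (by
      rw [card_prs_eq, Fintype.card_fin]
      rw [add_mul] at h1
      omega)
    exact ⟨v, p, hp, hl ▸ hL⟩
  · intro x hx
    by_contra hlt
    push Not at hlt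
    have hV : Fintype.card (VV (ZMod q)) = 3 * q ^ 3 := by rw [card_VV, hcard]
    let e := Fintype.equivFinOfCardEq hV
    let φ := SimpleGraph.Iso.map e (GQ (ZMod q))
    have hq0 : 0 < q := hq.pos
    obtain ⟨v, p, hp, hl⟩ := hx (3 * q ^ 3) (Nat.succ_le_of_lt (by positivity))
      ((GQ (ZMod q)).map e.toEmbedding) (by
        have h1 := card_prs_GQ (F := ZMod q)
        rw [card_prs_eq, hcard] at h1
        have h2 : ((GQ (ZMod q)).map e.toEmbedding).edgeSet.ncard =
            (GQ (ZMod q)).edgeSet.ncard := (Set.ncard_congr' φ.mapEdgeSet).symm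
        rw [h2]
        have h3 : (4 * (q : ℝ) ^ 4) ≤ 2 * ((GQ (ZMod q)).edgeSet.ncard : ℝ) := by
          exact_mod_cast h1
        have h4 : (0 : ℝ) < (q : ℝ) ^ 3 := by positivity
        push_cast
        nlinarith)
    refine no_cycle_mod (F := ZMod q) (by rw [hcard]; exact hodd) (p.map φ.symm.toHom)
      ((Walk.isCycle_map_iff_of_injective φ.symm.injective).2 hp) ?_
    rw [hcard, Walk.length_map]
    exact hl

lemma ex_pos (k : ℕ) (hk : 2 ≤ k) : 0 < extremalNumber k (cycleGraph 6) := by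
  classical
  have h := lt_extremalNumber_iff (V := Fin k) (cycleGraph 6) 0
  rw [Fintype.card_fin] at h
  rw [h]
  let a : Fin k := ⟨0, by omega⟩
  let b : Fin k := ⟨1, by omega⟩
  have hab : a ≠ b := by simp [a, b]
  refine ⟨edge a b, inferInstance, ?_, ?_⟩
  · intro hc
    rw [cycleGraph_isContained_iff (by omega)] at hc
    obtain ⟨v, p, hp, hl⟩ := hc
    have a0 := p.adj_getVert_succ (i := 0) (by omega)
    have a1 := p.adj_getVert_succ (i := 1) (by omega)
    have hne : p.getVert 0 ≠ p.getVert 2 := fun h => by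
      have := hp.getVert_injOn' (x₁ := 0) (x₂ := 2) (by simp) (by simp [hl]) h
      omega
    rw [edge_adj] at a0 a1
    simp only [Nat.reduceAdd] at a0 a1
    grind
  · rw [Finset.card_pos]
    refine ⟨s(a, b), ?_⟩
    simp only [mem_edgeFinset, mem_edgeSet, edge_adj]
    exact ⟨Or.inl ⟨trivial, trivial⟩, hab⟩

lemma ex_le (q : ℕ) (hq : 7000 ≤ q) :
    2 * extremalNumber (q ^ 3) (cycleGraph 6) ≤ (80 * q / 63) * q ^ 3 := by
  classical
  have h := extremalNumber_le_iff (V := Fin (q ^ 3)) (cycleGraph 6) ((80 * q / 63) * q ^ 3 / 2)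
  rw [Fintype.card_fin] at h
  suffices hs : extremalNumber (q ^ 3) (cycleGraph 6) ≤ (80 * q / 63) * q ^ 3 / 2 by omega
  rw [h]
  intro G _ hG
  by_contra hlt
  have hG' : ¬ HasC G 6 := by
    intro hc
    apply hG
    rw [cycleGraph_isContained_iff (by omega)]
    exact hc
  have h1 : G.edgeFinset.card = G.edgeSet.ncard := by
    rw [← Set.ncard_coe_finset, coe_edgeFinset]
  have h2 := hex_bound hG' (80 * q / 63) (by omega) (by
    rw [card_prs_eq, Fintype.card_fin, ← h1]
    omega)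
  rw [Fintype.card_fin] at h2
  set t := 80 * q / 63 with ht
  have h3 : 253 * q + 200 * 32 ≤ 200 * t := by omega
  have h4 : (253 * q + 200 * 32 : ℝ) ≤ 200 * t := by exact_mod_cast h3
  have h5 : (7000 : ℝ) ≤ q := by exact_mod_cast hq
  push_cast at h2
  have h6 : 253 / 200 * (q : ℝ) ≤ t - 32 := by linarith
  have h7 : 253 / 200 * (q : ℝ) ≤ t := by linarith
  have h8 : (253 / 200 * (q : ℝ)) ^ 2 ≤ (t : ℝ) ^ 2 := pow_le_pow_left₀ (by positivity) h7 2
  have h9 : (253 / 200 * (q : ℝ)) ^ 2 * (253 / 200 * (q : ℝ)) ≤ (t : ℝ) ^ 2 * (t - 32) :=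
    mul_le_mul h8 h6 (by positivity) (by positivity)
  have h10 : (0 : ℝ) < (q : ℝ) ^ 3 := by positivity
  nlinarith

theorem result : ∃ᶠ k in atTop, (21 / 20 : ℝ) ≤ c 6 k / d 6 k := by
  rw [frequently_atTop]
  intro N
  obtain ⟨q, hq1, hq⟩ := Nat.exists_infinite_primes (max N 7000)
  have hq2 : 7000 ≤ q := le_trans (le_max_right _ _) hq1
  have hq3 : N ≤ q := le_trans (le_max_left _ _) hq1
  have hq4 : q ≤ q ^ 3 := Nat.le_self_pow (by omega) q
  refine ⟨q ^ 3, by omega, ?_⟩
  have h1 := c_ge q hq (hq.odd_of_ne_two (by omega))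
  have h2 := ex_pos (q ^ 3) (by omega)
  have h3 := ex_le q hq2
  have h4 : (0 : ℝ) < ((q ^ 3 : ℕ) : ℝ) := by exact_mod_cast (by omega : 0 < q ^ 3)
  have h5 : 0 < d 6 (q ^ 3) := by
    unfold d
    have : (0 : ℝ) < extremalNumber (q ^ 3) (cycleGraph 6) := by exact_mod_cast h2
    positivity
  have h6 : d 6 (q ^ 3) ≤ 80 * (q : ℝ) / 63 := by
    unfold d
    rw [div_le_iff₀ h4]
    have h7 : (2 * extremalNumber (q ^ 3) (cycleGraph 6) : ℝ) ≤
        ((80 * q / 63 : ℕ) : ℝ) * ((q ^ 3 : ℕ) : ℝ) := by exact_mod_cast h3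
    have h8 : ((80 * q / 63 : ℕ) : ℝ) ≤ 80 * (q : ℝ) / 63 := by
      have := Nat.cast_div_le (α := ℝ) (m := 80 * q) (n := 63)
      push_cast at this
      exact this
    exact h7.trans (mul_le_mul_of_nonneg_right h8 h4.le)
  rw [le_div_iff₀ h5]
  linarith

end Pool.Agent.Results.MP_84a9df_co.HexagonGap
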